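import Pool.Agent.Y34.HB.Stm
import Pool.Agent.TH60.FP.Strip

/-!
# Project HB: parallel flats
-/

set_option autoImplicit false

universe u

open Metric Set Filter Topology
open Pool.Agent.TH60.FP Pool.Agent.Y34.HB

namespace Pool.Agent.Y73.HB

/-- the nearest point on a flat is unique -/
lemma nearest_unique (h1 : S_CONV.{u}) {X : Type u} [MetricSpace X] (hcn : CN X) {k : ℕ}
    {h : E k → X} (hh : Isometry h) {x : X} {d : ℝ} (hd0 : 0 ≤ d) (hd : ∀ w, d ≤ dist x (h w))
    {w w' : E k} (hw : dist x (h w) = d) (hw' : dist x (h w') = d) : w = w' := by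
  have h2 := (h1 X hcn k h h hh hh).1 x w w'
  rw [hw, hw'] at h2
  have h3 := hd (midpoint ℝ w w')
  have h4 : d ^ 2 ≤ dist x (h (midpoint ℝ w w')) ^ 2 := pow_le_pow_left₀ hd0 h3 2
  have h5 : dist w w' ^ 2 ≤ 0 := by linarith
  have h6 : dist w w' = 0 := by
    have h7 := sq_nonneg (dist w w')
    exact pow_eq_zero_iff (two_ne_zero) |>.1 (le_antisymm h5 h7)
  exact dist_eq_zero.1 h6

/-- a map which preserves midpoints and distances up to a constant is isometric -/
lemma isometry_of_midpoint {k : ℕ} {p : E k → E k} {C : ℝ}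
    (hm : ∀ z z', p (midpoint ℝ z z') = midpoint ℝ (p z) (p z'))
    (hC : ∀ z z', |dist (p z) (p z') - dist z z'| ≤ C) : Isometry p := by
  refine Isometry.of_dist_eq fun z z' => ?_
  have h1 : ∀ n : ℕ, dist (p z) (p (z + (2 : ℝ) ^ n • (z' - z))) = 2 ^ n * dist (p z) (p z') := by
    intro n
    induction n with
    | zero => simp
    | succ n ih =>
      have h2 : midpoint ℝ z (z + (2 : ℝ) ^ (n + 1) • (z' - z)) = z + (2 : ℝ) ^ n • (z' - z) := by
        rw [midpoint_eq_smul_add, invOf_eq_inv, pow_succ]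
        module
      have h3 := hm z (z + (2 : ℝ) ^ (n + 1) • (z' - z))
      rw [h2] at h3
      rw [h3, dist_left_midpoint] at ih
      rw [Real.norm_eq_abs, abs_of_pos (by norm_num : (0 : ℝ) < 2)] at ih
      calc dist (p z) (p (z + (2 : ℝ) ^ (n + 1) • (z' - z)))
          = 2 * (2⁻¹ * dist (p z) (p (z + (2 : ℝ) ^ (n + 1) • (z' - z)))) := by ring
        _ = 2 * (2 ^ n * dist (p z) (p z')) := by rw [ih]
        _ = 2 ^ (n + 1) * dist (p z) (p z') := by ring
  have h2 : ∀ n : ℕ, dist z (z + (2 : ℝ) ^ n • (z' - z)) = 2 ^ n * dist z z' := by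
    intro n
    rw [dist_self_add_right, norm_smul, norm_pow, Real.norm_eq_abs,
      abs_of_pos (by norm_num : (0 : ℝ) < 2), dist_comm z z', dist_eq_norm]
  have h3 : ∀ n : ℕ, |dist (p z) (p z') - dist z z'| * 2 ^ n ≤ C := by
    intro n
    have h4 := hC z (z + (2 : ℝ) ^ n • (z' - z))
    rw [h1, h2, ← mul_sub, abs_mul, abs_of_pos (by positivity : (0 : ℝ) < 2 ^ n)] at h4
    linarith
  by_contra hne
  have h5 : 0 < |dist (p z) (p z') - dist z z'| := abs_pos.2 (sub_ne_zero.2 hne)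
  obtain ⟨n, hn⟩ := pow_unbounded_of_one_lt (C / |dist (p z) (p z') - dist z z'|)
    (by norm_num : (1 : ℝ) < 2)
  rw [div_lt_iff₀ h5] at hn
  have := h3 n
  linarith

theorem t (h1 : S_CONV.{u}) (h2 : S_CONST.{u}) : S_PAR.{u} := by
  intro X _ _ hcn k f h hf hh hN
  set d := infDist (f 0) (range h) with hd
  have hd0 : 0 ≤ d := infDist_nonneg
  have hdz : ∀ z, infDist (f z) (range h) = d := fun z => h2 X hcn k f h hf hh hN z 0
  have hcl : IsClosed (range h) := hh.isClosedEmbedding.isClosed_range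
  have hex : ∀ z, ∃ w, dist (f z) (h w) = d := by
    intro z
    obtain ⟨y, ⟨w, rfl⟩, hy⟩ := hcl.exists_infDist_eq_dist ⟨h 0, mem_range_self 0⟩ (f z)
    exact ⟨w, by rw [← hy, hdz]⟩
  choose p hp using hex
  have hlow : ∀ z w, d ≤ dist (f z) (h w) := fun z w => by
    rw [← hdz z]
    exact infDist_le_dist_of_mem (mem_range_self w)
  have hmid : ∀ z z', p (midpoint ℝ z z') = midpoint ℝ (p z) (p z') := by
    intro z z'
    refine nearest_unique h1 hcn hh hd0 (hlow (midpoint ℝ z z')) (hp _) ?_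
    refine le_antisymm ?_ (hlow _ _)
    have := (h1 X hcn k f h hf hh).2.1 z z' (p z) (p z')
    rw [hp, hp] at this
    linarith
  have hC : ∀ z z', |dist (p z) (p z') - dist z z'| ≤ 2 * d := by
    intro z z'
    have e1 : dist (p z) (p z') = dist (h (p z)) (h (p z')) := (hh.dist_eq _ _).symm
    have e2 : dist z z' = dist (f z) (f z') := (hf.dist_eq _ _).symm
    rw [e1, e2, abs_le]
    have a1 := dist_triangle4 (h (p z)) (f z) (f z') (h (p z'))
    have a2 := dist_triangle4 (f z) (h (p z)) (h (p z')) (f z')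
    rw [dist_comm (h (p z)) (f z), hp, hp] at a1
    rw [dist_comm (h (p z')) (f z'), hp, hp] at a2
    constructor <;> linarith
  have hpi : Isometry p := isometry_of_midpoint hmid hC
  set e : E k ≃ᵃⁱ[ℝ] E k :=
    (hpi.affineIsometryOfStrictConvexSpace).toAffineIsometryEquiv rfl with he
  have hep : ∀ z, e z = p z := fun z => rfl
  refine ⟨e, hd0, fun z w => ?_⟩
  rw [hep]
  rcases eq_or_ne z w with rfl | hzw
  · rw [hp, dist_self]
    ring
  have hL : 0 < ‖w - z‖ := norm_pos_iff.2 (sub_ne_zero.2 hzw.symm)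
  set v : E k := ‖w - z‖⁻¹ • (w - z) with hv
  have hv1 : ‖v‖ = 1 := by
    rw [hv, norm_smul, norm_inv, norm_norm]
    exact inv_mul_cancel₀ hL.ne'
  have hline : Isometry (fun t : ℝ => z + t • v) := by
    refine Isometry.of_dist_eq fun s t => ?_
    rw [dist_add_left, dist_eq_norm, ← sub_smul, norm_smul, hv1, mul_one, Real.dist_eq,
      Real.norm_eq_abs]
  have hc : Isometry (fun t : ℝ => f (z + t • v)) := hf.comp hline
  have hc' : Isometry (fun t : ℝ => h (p (z + t • v))) := hh.comp (hpi.comp hline)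
  obtain ⟨o, ho⟩ := t_strip X hcn _ _ hc hc' ⟨d, fun t => (hp _).le⟩
  have h3 := ho 0 (-o)
  simp only [neg_add_cancel, zero_smul, add_zero, zero_add] at h3
  rw [hp] at h3
  have h4 : d ^ 2 ≤ dist (f z) (h (p (z + o • v))) ^ 2 := pow_le_pow_left₀ hd0 (hlow _ _) 2
  have ho0 : o = 0 := by
    have h5 : o ^ 2 ≤ 0 := by nlinarith
    exact pow_eq_zero_iff (two_ne_zero) |>.1 (le_antisymm h5 (sq_nonneg o))
  subst ho0
  have h6 := ho 0 ‖w - z‖
  simp only [add_zero, zero_smul, sub_zero] at h6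
  have h7 : z + ‖w - z‖ • v = w := by
    rw [hv, smul_smul, mul_inv_cancel₀ hL.ne', one_smul]
    abel
  rw [h7, hp] at h6
  rw [h6, dist_comm z w, dist_eq_norm]

end Pool.Agent.Y73.HB
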